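import Pool.Agent.Helper44.FP.Solved

namespace Pool.Agent.Results.MP_401a3a_an.ReducedFreePower

open Pool.Agent.Helper44.FP

universe u v

theorem result (D : Type u) [CStarAlgebra D] (τ : D →ₗ[ℂ] ℂ)
    (ι : ℕ → (C(unitInterval, ℂ) →⋆ₐ[ℂ] D)) (hD : IsFreePower D τ ι)
    (X : Type v) [MetricSpace X] [CompactSpace X] [ContractibleSpace X]
    (φ ψ : C(X, ℂ) →⋆ₐ[ℂ] D) (hφ : Function.Injective φ) (hψ : Function.Injective ψ)
    (h : ∀ f : C(X, ℂ), τ (φ f) = τ (ψ f)) : ApproxUnitaryEquiv φ ψ :=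
  Q1_solved D τ ι hD X φ ψ hφ hψ h

end Pool.Agent.Results.MP_401a3a_an.ReducedFreePower
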