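import Pool.Agent.Helper44.FP.Solved

namespace Pool.Agent.Results.MP_401a3a_an.UniqueTrace

open Pool.Agent.Helper44.FP

universe u v

theorem result (A : Type u) [CStarAlgebra A]
    (hsimple : ∀ I : TwoSidedIdeal A, IsClosed (I : Set A) → I = ⊥ ∨ I = ⊤)
    (τ : A →ₗ[ℂ] ℂ) (hτ : IsTracialState τ)
    (hunique : ∀ τ' : A →ₗ[ℂ] ℂ, IsTracialState τ' → τ' = τ)
    (hcomp : ∀ a b : A, IsPos a → IsPos b → dimTau τ a < dimTau τ b → CuntzLE a b)
    (X : Type v) [MetricSpace X] [CompactSpace X] [ContractibleSpace X]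
    (φ ψ : C(X, ℂ) →⋆ₐ[ℂ] A) (hφ : Function.Injective φ) (hψ : Function.Injective ψ)
    (h : ∀ f : C(X, ℂ), τ (φ f) = τ (ψ f)) : ApproxUnitaryEquiv φ ψ :=
  Q2_solved A hsimple τ hτ hunique hcomp X φ ψ hφ hψ h

end Pool.Agent.Results.MP_401a3a_an.UniqueTrace
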